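import Pool.Agent.N656.BD.End
import Pool.Agent.N656.BD.Sub

/-!
# The limit law of the integer point of a random plane curve of bounded bidegree

Let `a, b ≥ 2`, let `M = (a + 1)(b + 1)`, and consider all polynomials `f` in `ℤ[x, y]` of degree at
most `a` in `x` and at most `b` in `y` with coefficients in `[-H, H]`. As `H → ∞`, the number of the
`f` for which the set `Z(f)` of all integer solutions of `f = 0` is finite and not empty is
`(∑ V(P) + o(1)) H ^ (M - 1)`. Almost all `f` with an integer solution are absolutely irreducible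
and have exactly one integer solution. The law of this solution converges in total variation to an
explicit law `μ` on `ℤ ^ 2`, whose tail is of exact order `T ^ (-(min a b - 1))`. A function `B(H)`
bounds the integer solutions of almost all `f` for which `Z(f)` is finite and not empty if and only
if it tends to infinity.
-/

set_option autoImplicit false

open MeasureTheory Filter Topology

namespace Pool.Agent.Results.MP_2d259b_nt.BidegreeLimitLaw

/-- the pairs `(j, i) ≠ (0, 0)` with `0 ≤ j ≤ b` and `0 ≤ i ≤ a`; the pair `(j, i)` belongs to the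
monomial `x ^ i y ^ j` -/
abbrev Exponents (a b : ℕ) : Type := {m : Fin (b + 1) × Fin (a + 1) // (m.1 : ℕ) + m.2 ≠ 0}

/-- `V(x, y)`: the volume of the set of all `(u_m)` with entries in `[-1, 1]`, indexed by the
nonconstant monomials `m = x ^ i y ^ j` with `i ≤ a` and `j ≤ b`, such that
`|∑ u_m x ^ i y ^ j| ≤ 1` -/
noncomputable def V (a b : ℕ) (P : ℤ × ℤ) : ℝ :=
  volume.real {u : Exponents a b → ℝ | (∀ m, |u m| ≤ 1) ∧
    |∑ m, u m * ((P.1 : ℝ) ^ (m.1.2 : ℕ) * (P.2 : ℝ) ^ (m.1.1 : ℕ))| ≤ 1}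

/-- the probability measure on `ℤ × ℤ` with weights proportional to `V` -/
noncomputable def μ (a b : ℕ) (A : Set (ℤ × ℤ)) : ℝ := (∑' P : A, V a b P) / ∑' P, V a b P

/-- the polynomials of degree at most `a` in `x` and at most `b` in `y` with coefficients in
`[-H, H]` -/
def Box (a b H : ℕ) : Set (MvPolynomial (Fin 2) ℤ) :=
  {f | f.degreeOf 0 ≤ a ∧ f.degreeOf 1 ≤ b ∧ ∀ m, |f.coeff m| ≤ (H : ℤ)}

/-- the integer solutions of `f = 0` -/
def Z (f : MvPolynomial (Fin 2) ℤ) : Set (ℤ × ℤ) := {P | MvPolynomial.eval ![P.1, P.2] f = 0}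

/-- the number of the `f` in the box for which `Z(f)` is finite and contains a point of `A` -/
noncomputable def number (a b : ℕ) (A : Set (ℤ × ℤ)) (H : ℕ) : ℕ :=
  Set.ncard {f ∈ Box a b H | (Z f).Finite ∧ ∃ P ∈ A, P ∈ Z f}

/-- the points with a coordinate of absolute value larger than `T` -/
def Large (T : ℕ) : Set (ℤ × ℤ) := {P | T < max P.1.natAbs P.2.natAbs}

open Pool.Agent.N656.LL Pool.Agent.N656.BD

lemma V_eq (a b : ℕ) (P : ℤ × ℤ) : V (a + 2) (b + 2) P = vol fun m => (mn a b P m : ℝ) := by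
  unfold V vol K mn
  simp

lemma mem_Z {a b : ℕ} (w : Ix a b → ℤ) (P : ℤ × ℤ) :
    P ∈ Z (pB (i := a + 2) (j := b + 2) w) ↔ G w P.1 P.2 = 0 := by
  unfold Z
  rw [Set.mem_ofPred_eq, eval_pB]

lemma ncard_box (a b H : ℕ) (C : MvPolynomial (Fin 2) ℤ → Prop) :
    Set.ncard {f ∈ Box (a + 2) (b + 2) H | C f} =
      Set.ncard {w : Ix a b → ℤ | w ∈ box (Ix a b) H ∧ C (pB (i := a + 2) (j := b + 2) w)} :=
  ncard_pol a b H C

lemma fin_sub {a b H : ℕ} (p : (Ix a b → ℤ) → Prop) :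
    {w : Ix a b → ℤ | w ∈ box (Ix a b) H ∧ p w}.Finite :=
  (box (Ix a b) H).finite_toSet.subset fun _ h => h.1

lemma hle (a b : ℕ) (A : Set (ℤ × ℤ)) (H : ℕ) :
    (number (a + 2) (b + 2) A H : ℝ) ≤ (datb a b).N A H := by
  unfold number
  rw [ncard_box]
  unfold Data.N
  have h1 : {w : Ix a b → ℤ | w ∈ box (Ix a b) H ∧
      ((Z (pB (i := a + 2) (j := b + 2) w)).Finite ∧
        ∃ P ∈ A, P ∈ Z (pB (i := a + 2) (j := b + 2) w))} ⊆
      {w : Ix a b → ℤ | w ∈ box (Ix a b) H ∧ ∃ P ∈ A, G w P.1 P.2 = 0} := by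
    rintro w ⟨hw, _, P, hP, hz⟩
    exact ⟨hw, P, hP, (mem_Z w P).1 hz⟩
  exact_mod_cast Set.ncard_le_ncard h1 (fin_sub _)

lemma hge (a b : ℕ) (A : Set (ℤ × ℤ)) (H : ℕ) :
    (datb a b).N A H - (datb a b).N2 H ≤ (number (a + 2) (b + 2) A H : ℝ) := by
  unfold number
  rw [ncard_box, sub_le_iff_le_add]
  have h1 : {w : Ix a b → ℤ | w ∈ box (Ix a b) H ∧ ∃ P ∈ A, G w P.1 P.2 = 0} ⊆
      {w : Ix a b → ℤ | w ∈ box (Ix a b) H ∧
      ((Z (pB (i := a + 2) (j := b + 2) w)).Finite ∧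
        ∃ P ∈ A, P ∈ Z (pB (i := a + 2) (j := b + 2) w))} ∪
      {w : Ix a b → ℤ | w ∈ box (Ix a b) H ∧
        ∃ P Q : ℤ × ℤ, P ≠ Q ∧ G w P.1 P.2 = 0 ∧ G w Q.1 Q.2 = 0} := by
    rintro w ⟨hw, P, hP, hz⟩
    by_cases hf : (Z (pB (i := a + 2) (j := b + 2) w)).Finite
    · exact Or.inl ⟨hw, hf, P, hP, (mem_Z w P).2 hz⟩
    · right
      obtain ⟨Q, hQ, R, hR, hQR⟩ := Set.Infinite.nontrivial hf
      exact ⟨hw, Q, R, hQR, (mem_Z w Q).1 hQ, (mem_Z w R).1 hR⟩
  have h2 := (Set.ncard_le_ncard h1 ((fin_sub _).union (fin_sub _))).trans (Set.ncard_union_le _ _)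
  have h3 : (datb a b).N2 H = (Set.ncard {w : Ix a b → ℤ | w ∈ box (Ix a b) H ∧
        ∃ P Q : ℤ × ℤ, P ≠ Q ∧ G w P.1 P.2 = 0 ∧ G w Q.1 Q.2 = 0} : ℝ) := rfl
  have h4 : (datb a b).N A H = (Set.ncard {w : Ix a b → ℤ | w ∈ box (Ix a b) H ∧
        ∃ P ∈ A, G w P.1 P.2 = 0} : ℝ) := rfl
  rw [h3, h4]
  exact_mod_cast h2

lemma hmono (a b : ℕ) (A B : Set (ℤ × ℤ)) (hAB : A ⊆ B) (H : ℕ) :
    (number (a + 2) (b + 2) A H : ℝ) ≤ (number (a + 2) (b + 2) B H : ℝ) := by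
  unfold number
  rw [ncard_box, ncard_box]
  have h1 : {w : Ix a b → ℤ | w ∈ box (Ix a b) H ∧
      ((Z (pB (i := a + 2) (j := b + 2) w)).Finite ∧
        ∃ P ∈ A, P ∈ Z (pB (i := a + 2) (j := b + 2) w))} ⊆
      {w : Ix a b → ℤ | w ∈ box (Ix a b) H ∧
      ((Z (pB (i := a + 2) (j := b + 2) w)).Finite ∧
        ∃ P ∈ B, P ∈ Z (pB (i := a + 2) (j := b + 2) w))} := by
    rintro w ⟨hw, hf, P, hP, hz⟩
    exact ⟨hw, hf, P, hAB hP, hz⟩
  exact_mod_cast Set.ncard_le_ncard h1 (fin_sub _)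

lemma except_le (a b H : ℕ) :
    (Set.ncard {f ∈ Box (a + 2) (b + 2) H | (Z f).Nonempty ∧ ¬ ((∃ P, Z f = {P}) ∧
      Irreducible (MvPolynomial.map (Int.castRingHom (AlgebraicClosure ℚ)) f))} : ℝ) ≤
    (datb a b).N2 H + NRb a b H := by
  rw [ncard_box]
  have h1 : {w : Ix a b → ℤ | w ∈ box (Ix a b) H ∧
      ((Z (pB (i := a + 2) (j := b + 2) w)).Nonempty ∧
        ¬ ((∃ P, Z (pB (i := a + 2) (j := b + 2) w) = {P}) ∧
          Irreducible (MvPolynomial.map (Int.castRingHom (AlgebraicClosure ℚ))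
            (pB (i := a + 2) (j := b + 2) w))))} ⊆
      {w : Ix a b → ℤ | w ∈ box (Ix a b) H ∧
        ∃ P Q : ℤ × ℤ, P ≠ Q ∧ G w P.1 P.2 = 0 ∧ G w Q.1 Q.2 = 0} ∪
      {w : Ix a b → ℤ | w ∈ box (Ix a b) H ∧ (∃ P : ℤ × ℤ, G w P.1 P.2 = 0) ∧
        ¬ Irreducible (MvPolynomial.map (Int.castRingHom (AlgebraicClosure ℚ))
          (pB (i := a + 2) (j := b + 2) w))} := by
    rintro w ⟨hw, ⟨P, hP⟩, hn⟩
    by_cases hi : Irreducible (MvPolynomial.map (Int.castRingHom (AlgebraicClosure ℚ))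
            (pB (i := a + 2) (j := b + 2) w))
    · left
      by_contra hcon
      apply hn
      refine ⟨⟨P, ?_⟩, hi⟩
      rw [Set.eq_singleton_iff_unique_mem]
      refine ⟨hP, fun Q hQ => ?_⟩
      by_contra hne
      exact hcon ⟨hw, Q, P, hne, (mem_Z w Q).1 hQ, (mem_Z w P).1 hP⟩
    · exact Or.inr ⟨hw, ⟨P, (mem_Z w P).1 hP⟩, hi⟩
  have h2 := (Set.ncard_le_ncard h1 ((fin_sub _).union (fin_sub _))).trans (Set.ncard_union_le _ _)
  have h3 : (datb a b).N2 H = (Set.ncard {w : Ix a b → ℤ | w ∈ box (Ix a b) H ∧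
        ∃ P Q : ℤ × ℤ, P ≠ Q ∧ G w P.1 P.2 = 0 ∧ G w Q.1 Q.2 = 0} : ℝ) := rfl
  rw [h3]
  unfold NRb
  exact_mod_cast h2

lemma v_eq (a b : ℕ) : (datb a b).v = V (a + 2) (b + 2) := by
  funext P
  rw [V_eq]
  rfl

lemma wt_eq (a b : ℕ) (A : Set (ℤ × ℤ)) :
    (datb a b).wt A = ∑' P : A, V (a + 2) (b + 2) P := by
  unfold Data.wt
  rw [v_eq, _root_.tsum_subtype]

lemma wt_univ (a b : ℕ) : (datb a b).wt Set.univ = ∑' P, V (a + 2) (b + 2) P := by
  unfold Data.wt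
  rw [v_eq, Set.indicator_univ]

theorem result (a b : ℕ) (ha : 2 ≤ a) (hb : 2 ≤ b) :
    -- the law
    (∀ P, 0 < V a b P) ∧ Summable (V a b) ∧
    (∃ c C : ℝ, 0 < c ∧ ∀ T : ℕ, 1 ≤ T →
      c / (T : ℝ) ^ (min a b - 1) ≤ μ a b (Large T) ∧
      μ a b (Large T) ≤ C / (T : ℝ) ^ (min a b - 1)) ∧
    -- the number of the polynomials for which the set of integer solutions is finite, not empty
    Tendsto (fun H : ℕ => (number a b Set.univ H : ℝ) / (H : ℝ) ^ ((a + 1) * (b + 1) - 1)) atTop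
      (𝓝 (∑' P, V a b P)) ∧
    -- almost all polynomials with an integer solution have exactly one of them, and are
    -- absolutely irreducible
    Tendsto (fun H : ℕ => (Set.ncard {f ∈ Box a b H | (Z f).Nonempty ∧ ¬ ((∃ P, Z f = {P}) ∧
        Irreducible (MvPolynomial.map (Int.castRingHom (AlgebraicClosure ℚ)) f))} : ℝ) /
      number a b Set.univ H) atTop (𝓝 0) ∧
    -- the law of the integer solution, uniformly for all sets
    (∀ ε : ℝ, 0 < ε → ∃ H₀ : ℕ, ∀ H : ℕ, H₀ ≤ H → ∀ A : Set (ℤ × ℤ),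
      |(number a b A H : ℝ) / number a b Set.univ H - μ a b A| ≤ ε) ∧
    -- bounds for the integer solutions of almost all polynomials
    (∀ B : ℕ → ℕ, Tendsto (fun H : ℕ => (number a b (Large (B H)) H : ℝ) /
      number a b Set.univ H) atTop (𝓝 0) ↔ Tendsto B atTop atTop) := by
  obtain ⟨a, rfl⟩ : ∃ a', a = a' + 2 := ⟨a - 2, by omega⟩
  obtain ⟨b, rfl⟩ : ∃ b', b = b' + 2 := ⟨b - 2, by omega⟩
  have hpos : ∀ P, 0 < V (a + 2) (b + 2) P := fun P => by rw [V_eq]; exact vol_pos _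
  obtain ⟨D, hD⟩ : ∃ D, D = datb a b := ⟨_, rfl⟩
  obtain ⟨N', hN'⟩ : ∃ N' : Set (ℤ × ℤ) → ℕ → ℝ,
    N' = fun A H => (number (a + 2) (b + 2) A H : ℝ) := ⟨_, rfl⟩
  have h1 : ∀ A H, N' A H ≤ D.N A H := by rw [hN', hD]; exact hle a b
  have h2 : ∀ A H, D.N A H - D.N2 H ≤ N' A H := by rw [hN', hD]; exact hge a b
  have h3 : ∀ A H, 0 ≤ N' A H := by
    intro A H
    rw [hN']
    exact Nat.cast_nonneg _
  have h4 : ∀ A B : Set (ℤ × ℤ), A ⊆ B → ∀ H, N' A H ≤ N' B H := by rw [hN']; exact hmono a b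
  have hn : D.n = (a + 2 + 1) * (b + 2 + 1) - 1 := by
    have h5 : D.n = Fintype.card (JJ a b) := by rw [hD]; rfl
    have h6 := card_JJ a b
    rw [card_Ix] at h6
    have h7 : (a + 2 + 1) * (b + 2 + 1) = (b + 3) * (a + 3) := by ring
    rw [h5, h7]
    omega
  have hwt : ∀ A, D.wt A = ∑' P : A, V (a + 2) (b + 2) P := by
    intro A
    rw [hD]
    exact wt_eq a b A
  have hwtu : D.wt Set.univ = ∑' P, V (a + 2) (b + 2) P := by
    rw [hD]
    exact wt_univ a b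
  refine ⟨hpos, ?_, ?_, ?_, ?_, ?_, ?_⟩
  · rw [← v_eq]
    exact (datb a b).summable
  · obtain ⟨w, hw⟩ : ∃ w, w = D.wt Set.univ := ⟨_, rfl⟩
    have hw0 : 0 < w := by rw [hw]; exact D.wt_univ_pos
    have hμ : ∀ T, μ (a + 2) (b + 2) (Large T) = D.wt (Data.big T) / w := by
      intro T
      unfold μ
      rw [hw, hwt, hwtu]
      rfl
    obtain ⟨c, hc0, hc⟩ := wt_lowerB a b
    have hk : min (a + 2) (b + 2) - 1 = min a b + 1 := by omega
    rw [hk]
    refine ⟨c / w, D.K * 2 ^ D.n / w, by positivity, fun T hT => ?_⟩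
    have hT' : (1 : ℝ) ≤ T := by exact_mod_cast hT
    have hT0 : (0 : ℝ) < T := by linarith
    rw [hμ]
    constructor
    · have h5 := hc T hT
      rw [← hD] at h5
      calc c / w / (T : ℝ) ^ (min a b + 1) = c / (T : ℝ) ^ (min a b + 1) / w := by
            field_simp
        _ ≤ _ := by gcongr
    · have h5 := D.wt_tail T
      have hk' : D.k = min a b + 1 := by rw [hD]; rfl
      have hK := D.hK
      rw [hk'] at h5
      calc D.wt (Data.big T) / w ≤ D.K * 2 ^ D.n / ((T : ℝ) + 1) ^ (min a b + 1) / w := by gcongr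
        _ ≤ D.K * 2 ^ D.n / (T : ℝ) ^ (min a b + 1) / w := by
            gcongr
            linarith
        _ = _ := by field_simp
  · have h5 := lim_sub D N' h1 h2 Set.univ
    rw [hwtu, hn, hN'] at h5
    exact h5
  · have h5 := D.two_rare
    have h6 := irr_rareB a b
    rw [← hD] at h6
    have h7 := h5.add h6
    rw [add_zero] at h7
    have h8 : Tendsto (fun H : ℕ => (D.N2 H + NRb a b H) / (H : ℝ) ^ D.n) atTop (𝓝 0) := by
      refine h7.congr fun H => ?_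
      rw [add_div]
    have h9 := div_sub D N' h1 h2 _ h8
    refine tendsto_of_tendsto_of_tendsto_of_le_of_le tendsto_const_nhds h9 ?_ ?_
    · intro H
      exact div_nonneg (Nat.cast_nonneg _) (Nat.cast_nonneg _)
    · intro H
      have h10 := except_le a b H
      rw [← hD] at h10
      have h11 := h3 Set.univ H
      simp only
      rw [hN'] at h11 ⊢
      exact div_le_div_of_nonneg_right h10 h11
  · intro ε hε
    have h5 := ratio_sub D N' h1 h2 hε
    rw [eventually_atTop] at h5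
    obtain ⟨H₀, h6⟩ := h5
    refine ⟨H₀, fun H hH A => ?_⟩
    have h7 := h6 H hH A
    unfold μ
    rw [← hwt, ← hwtu]
    rw [hN'] at h7
    exact h7
  · intro B
    have h5 := bound_iff_sub D N' h1 h2 h3 h4 B
    rw [hN'] at h5
    exact h5

end Pool.Agent.Results.MP_2d259b_nt.BidegreeLimitLaw
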