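import Pool.Agent.N733.TG.K
import Pool.Agent.Results.MP_2d259b_nt.FibresOffPolynomialValues
import Pool.Agent.Results.MP_2d259b_nt.FewExceptionalCurves

/-!
# Effective bounds for the integer points on all curves `F(x, y) = t`, `t` near values of multiplicative functions

Let `f` be a positive multiplicative function of at most polynomial growth such that `f p ≤ M p` for the large primes `p`,
with different values at different large primes; for example Euler's function or the sum of the divisors. Let `G` be a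
function with steps bounded below by a positive constant and growth at most `v ^ δ`, for example `G v = α v ^ δ`. Let
`d ≥ 4` and `δ (1 / d + η (d + 1) (d + 2) / 2) + κ < 1`. For all `m ≤ N` but `N / (log N) ^ U`, for EVERY integer `t` with
`||t| - G (f m)| ≤ f(m) ^ κ` and ALL polynomials `F ∈ ℤ[x, y]` of degree `d` with squarefree leading form and
`h(F) ≤ K (1 + |t|) ^ η`, all integer points of the curve `F(x, y) = t` are bounded by an explicit power of `h(F) + |t|`.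
The values of `f` are in general taken with very large multiplicities, and so this does not follow from the number of the
exceptional `t`.
-/

set_option autoImplicit false

namespace Pool.Agent.Results.MP_2d259b_nt.MultiplicativeValues

open Pool.Agent.N733.TG (LM Expanding lm_totient lm_sigma keep_good expanding_pow)

/-- the sum of the absolute values of the coefficients -/
def len (F : MvPolynomial (Fin 2) ℤ) : ℕ := ∑ m ∈ F.support, (F.coeff m).natAbs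

/-- `F` has degree `d` and its leading form is squarefree over `ℚ` -/
def Regular (d : ℕ) (F : MvPolynomial (Fin 2) ℤ) : Prop :=
  F.totalDegree = d ∧
    Squarefree (MvPolynomial.map (Int.castRingHom ℚ) (MvPolynomial.homogeneousComponent d F))

/-- all integer points of the curve `F(x, y) = t` are at most
`((d + 1) (h(F) + |t|)) ^ (10 ^ 17 * 1296 ^ d * (d + 1) ^ 15)` -/
def Bounded (d : ℕ) (F : MvPolynomial (Fin 2) ℤ) (t : ℤ) : Prop :=
  ∀ x y : ℤ, MvPolynomial.eval ![x, y] F = t →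
    max x.natAbs y.natAbs ≤ ((d + 1) * (len F + t.natAbs)) ^ (10 ^ 17 * 1296 ^ d * (d + 1) ^ 15)

lemma fin_abs (P : ℤ → Prop) (X : ℝ) : {k : ℤ | P k ∧ |(k : ℝ)| ≤ X}.Finite := by
  refine (Set.finite_Icc (-⌊X⌋) ⌊X⌋).subset ?_
  rintro k ⟨-, h1⟩
  rw [abs_le] at h1
  rw [Set.mem_Icc]
  constructor
  · rw [neg_le]
    apply Int.le_floor.2
    push_cast
    linarith [h1.1]
  · exact Int.le_floor.2 h1.2

/-- the exceptional `t` for one polynomial, with a constant which depends on the degree only -/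
lemma count (d : ℕ) (hd : 4 ≤ d) : ∃ C : ℝ, 0 ≤ C ∧ ∀ F : MvPolynomial (Fin 2) ℤ, Regular d F → ∀ X : ℝ, 1 ≤ X →
    ({k : ℤ | ¬ Bounded d F k ∧ |(k : ℝ)| ≤ X}.ncard : ℝ) ≤ C * X ^ (1 / (d : ℝ)) := by
  obtain ⟨N, hN⟩ : ∃ N : ℕ, N = 10 ^ 9 * 36 ^ d * (d + 1) ^ 9 := ⟨_, rfl⟩
  refine ⟨5 * N, by positivity, fun F hF X hX => ?_⟩
  obtain ⟨-, h2⟩ := FibresOffPolynomialValues.result d hd F hF.1 hF.2
  have hX0 : 0 < X := by linarith
  have hd0 : (0 : ℝ) < d := by exact_mod_cast (by omega : 0 < d)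
  obtain ⟨ρ, hρ⟩ : ∃ ρ : ℝ, ρ = X ^ (1 / (d : ℝ)) := ⟨_, rfl⟩
  have hρ1 : 1 ≤ ρ := by
    rw [hρ]
    exact Real.one_le_rpow hX (by positivity)
  have hρp : ρ ^ d = X := by
    rw [hρ, ← Real.rpow_natCast, ← Real.rpow_mul hX0.le, one_div_mul_cancel hd0.ne', Real.rpow_one]
  obtain ⟨M, hM⟩ : ∃ M : ℕ, M = ⌈ρ⌉₊ := ⟨_, rfl⟩
  have hM1 : ρ ≤ M := by rw [hM]; exact Nat.le_ceil _
  have hM2 : (M : ℝ) ≤ ρ + 1 := by
    rw [hM]
    exact (Nat.ceil_lt_add_one (by linarith)).le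
  have h3 := h2 M
  rw [← hN] at h3
  have hsub : {k : ℤ | ¬ Bounded d F k ∧ |(k : ℝ)| ≤ X} ⊆ {t : ℤ | |t| ≤ (M : ℤ) ^ d ∧
      ∃ x y : ℤ, MvPolynomial.eval ![x, y] F = t ∧
        ((d + 1) * (∑ m ∈ F.support, (F.coeff m).natAbs + t.natAbs)) ^
          (10 ^ 17 * 1296 ^ d * (d + 1) ^ 15) < max x.natAbs y.natAbs} := by
    rintro k ⟨h4, h5⟩
    refine ⟨?_, ?_⟩
    · have h6 : (|k| : ℝ) ≤ (M : ℝ) ^ d := by
        refine h5.trans ?_
        rw [← hρp]
        exact pow_le_pow_left₀ (by linarith) hM1 _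
      exact_mod_cast h6
    · unfold Bounded at h4
      push Not at h4
      exact h4
  have h7 : ({k : ℤ | ¬ Bounded d F k ∧ |(k : ℝ)| ≤ X}.encard) ≤ ((N * (2 * M + 1) : ℕ) : ℕ∞) :=
    (Set.encard_le_encard hsub).trans h3
  rw [← (fin_abs _ X).cast_ncard_eq] at h7
  have h8 : {k : ℤ | ¬ Bounded d F k ∧ |(k : ℝ)| ≤ X}.ncard ≤ N * (2 * M + 1) := by exact_mod_cast h7
  have h9 : ({k : ℤ | ¬ Bounded d F k ∧ |(k : ℝ)| ≤ X}.ncard : ℝ) ≤ N * (2 * M + 1) := by exact_mod_cast h8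
  have hN0 : (0 : ℝ) ≤ N := Nat.cast_nonneg _
  rw [← hρ]
  calc ({k : ℤ | ¬ Bounded d F k ∧ |(k : ℝ)| ≤ X}.ncard : ℝ) ≤ N * (2 * M + 1) := h9
    _ ≤ N * (5 * ρ) := by
        apply mul_le_mul_of_nonneg_left _ hN0
        linarith
    _ = 5 * N * ρ := by ring

lemma coeff_le_len (F : MvPolynomial (Fin 2) ℤ) (m : Fin 2 →₀ ℕ) : (F.coeff m).natAbs ≤ len F := by
  by_cases h : m ∈ F.support
  · exact Finset.single_le_sum (f := fun m => (F.coeff m).natAbs) (fun _ _ => Nat.zero_le _) h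
  · rw [MvPolynomial.notMem_support_iff.1 h]
    simp

/-- the exceptional `t` for all the polynomials at once -/
lemma countS (d : ℕ) (hd : 4 ≤ d) (K η : ℝ) (hη : 0 ≤ η) : ∃ C : ℝ, ∀ X : ℝ, 1 ≤ X →
    ({t : ℤ | (∃ F, Regular d F ∧ (len F : ℝ) ≤ K * (1 + |(t : ℝ)|) ^ η ∧ ¬ Bounded d F t) ∧
      |(t : ℝ)| ≤ X}.ncard : ℝ) ≤ C * X ^ (1 / (d : ℝ) + η * (((d + 1) * (d + 2) / 2 : ℕ) : ℝ)) := by
  obtain ⟨C, hC0, hC⟩ := count d hd
  obtain ⟨E, hE⟩ : ∃ E : ℕ, E = (d + 1) * (d + 2) / 2 := ⟨_, rfl⟩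
  obtain ⟨K', hK'⟩ : ∃ K' : ℝ, K' = 2 * (|K| * 2 ^ η) + 1 := ⟨_, rfl⟩
  have hK'1 : 0 ≤ K' := by rw [hK']; positivity
  refine ⟨K' ^ E * C, fun X hX => ?_⟩
  have hX0 : 0 < X := by linarith
  obtain ⟨B, hB⟩ : ∃ B : ℕ, B = ⌊|K| * (1 + X) ^ η⌋₊ := ⟨_, rfl⟩
  have hXη : 1 ≤ X ^ η := Real.one_le_rpow hX hη
  have hB1 : (B : ℝ) ≤ |K| * 2 ^ η * X ^ η := by
    rw [hB]
    refine (Nat.floor_le (by positivity)).trans ?_
    rw [mul_assoc, ← Real.mul_rpow (by norm_num) hX0.le]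
    exact mul_le_mul_of_nonneg_left (Real.rpow_le_rpow (by linarith) (by linarith) hη) (abs_nonneg _)
  have hB2 : 2 * (B : ℝ) + 1 ≤ K' * X ^ η := by
    rw [hK', add_mul, one_mul]
    linarith
  have h1 := (FewExceptionalCurves.result d hd B).1
  rw [← hE] at h1
  have hfin : {F : MvPolynomial (Fin 2) ℤ | F.totalDegree ≤ d ∧ ∀ m, |F.coeff m| ≤ (B : ℤ)}.Finite := by
    apply Set.finite_of_ncard_ne_zero
    rw [h1]
    positivity
  have hcard : (hfin.toFinset.card : ℝ) ≤ K' ^ E * X ^ (η * (E : ℝ)) := by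
    rw [← Set.ncard_eq_toFinset_card _ hfin, h1, Real.rpow_mul_natCast hX0.le, ← mul_pow]
    push_cast
    exact pow_le_pow_left₀ (by positivity) hB2 _
  classical
  obtain ⟨A, hA⟩ : ∃ A : Finset (MvPolynomial (Fin 2) ℤ), A = hfin.toFinset.filter (fun F => Regular d F) := ⟨_, rfl⟩
  have hAc : (A.card : ℝ) ≤ K' ^ E * X ^ (η * (E : ℝ)) := by
    refine le_trans ?_ hcard
    rw [hA]
    exact_mod_cast Finset.card_filter_le _ _
  obtain ⟨W, hW⟩ : ∃ W : MvPolynomial (Fin 2) ℤ → Finset ℤ,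
    W = fun F => (fin_abs (fun k => ¬ Bounded d F k) X).toFinset := ⟨_, rfl⟩
  have hsub : {t : ℤ | (∃ F, Regular d F ∧ (len F : ℝ) ≤ K * (1 + |(t : ℝ)|) ^ η ∧ ¬ Bounded d F t) ∧
      |(t : ℝ)| ≤ X} ⊆ ((A.biUnion W : Finset ℤ) : Set ℤ) := by
    rintro t ⟨⟨F, h2, h3, h4⟩, h5⟩
    rw [Finset.mem_coe, Finset.mem_biUnion]
    refine ⟨F, ?_, ?_⟩
    · rw [hA, Finset.mem_filter, Set.Finite.mem_toFinset]
      refine ⟨⟨h2.1.le, fun m => ?_⟩, h2⟩
      have h6 : (len F : ℝ) ≤ |K| * (1 + X) ^ η := by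
        refine h3.trans ((mul_le_mul_of_nonneg_right (le_abs_self K) (by positivity)).trans ?_)
        exact mul_le_mul_of_nonneg_left (Real.rpow_le_rpow (by positivity) (by linarith) hη) (abs_nonneg _)
      have h7 : len F ≤ B := by
        rw [hB]
        exact Nat.le_floor h6
      have h8 := (coeff_le_len F m).trans h7
      rw [Int.abs_eq_natAbs]
      exact_mod_cast h8
    · rw [hW, Set.Finite.mem_toFinset]
      exact ⟨h4, h5⟩
  have h2 := (Set.ncard_le_ncard hsub (Finset.finite_toSet _))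
  rw [Set.ncard_coe_finset] at h2
  have h3 : (({t : ℤ | (∃ F, Regular d F ∧ (len F : ℝ) ≤ K * (1 + |(t : ℝ)|) ^ η ∧ ¬ Bounded d F t) ∧
      |(t : ℝ)| ≤ X}.ncard : ℕ) : ℝ) ≤ ∑ F ∈ A, ((W F).card : ℝ) := by
    exact_mod_cast h2.trans Finset.card_biUnion_le
  refine h3.trans ?_
  have h4 : ∀ F ∈ A, ((W F).card : ℝ) ≤ C * X ^ (1 / (d : ℝ)) := by
    intro F hF
    rw [hA, Finset.mem_filter] at hF
    have := hC F hF.2 X hX
    rw [Set.ncard_eq_toFinset_card _ (fin_abs _ X)] at this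
    rw [hW]
    exact this
  refine (Finset.sum_le_card_nsmul A _ _ h4).trans ?_
  rw [nsmul_eq_mul, Real.rpow_add hX0, ← hE]
  have h5 : 0 ≤ C * X ^ (1 / (d : ℝ)) := by positivity
  calc (A.card : ℝ) * (C * X ^ (1 / (d : ℝ)))
      ≤ (K' ^ E * X ^ (η * (E : ℝ))) * (C * X ^ (1 / (d : ℝ))) := mul_le_mul_of_nonneg_right hAc h5
    _ = _ := by ring

/-- **Theorem.** Let `f` be multiplicative and positive, of at most polynomial growth, with `f p ≤ M p` at the large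
primes, and injective there. Let `G` have steps `≥ a > 0` and growth at most `v ^ δ`. Let `d ≥ 4`, `η, κ ≥ 0`, and
`δ (1 / d + η (d + 1) (d + 2) / 2) + κ < 1`. For all `K`, `U` and all large `N`, for all `m ≤ N` but `N / (log N) ^ U`, for
EVERY integer `t` with `||t| - G (f m)| ≤ f(m) ^ κ` and ALL polynomials `F ∈ ℤ[x, y]` of degree `d` with squarefree leading
form and `h(F) ≤ K (1 + |t|) ^ η`, all integer points `(x, y)` of `F(x, y) = t` satisfy
`max(|x|, |y|) ≤ ((d + 1) (h(F) + |t|)) ^ (10 ^ 17 * 1296 ^ d * (d + 1) ^ 15)`. Euler's function and the sum of the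
divisors are examples of such functions `f`, and `α v ^ δ` with `α > 0`, `δ ≥ 1` is an example of `G`. -/
theorem result :
    (∀ f : ℕ → ℕ, LM f → ∀ (G : ℕ → ℝ) (δ : ℝ), Expanding G δ → ∀ (d : ℕ) (η κ : ℝ), 4 ≤ d → 0 ≤ η → 0 ≤ κ →
      δ * (1 / (d : ℝ) + η * (((d + 1) * (d + 2) / 2 : ℕ) : ℝ)) + κ < 1 →
      ∀ (K : ℝ) (U : ℕ), ∃ N₀ : ℕ, ∀ N : ℕ, N₀ ≤ N →
      ({m : ℕ | 1 ≤ m ∧ m ≤ N ∧ ¬ ∀ t : ℤ, |(|t| : ℝ) - G (f m)| ≤ (f m : ℝ) ^ κ →
        ∀ F : MvPolynomial (Fin 2) ℤ, Regular d F → (len F : ℝ) ≤ K * (1 + |(t : ℝ)|) ^ η →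
          Bounded d F t}.ncard : ℝ) ≤ N / Real.log N ^ U) ∧
    (LM Nat.totient ∧ LM (fun m => ∑ d ∈ m.divisors, d)) ∧
    ∀ α δ : ℝ, 0 < α → 1 ≤ δ → Expanding (fun v => α * (v : ℝ) ^ δ) δ := by
  refine ⟨fun f hf G δ hG d η κ hd hη hκ h1 K U => ?_, ⟨lm_totient, lm_sigma⟩,
    fun α d hα hd => expanding_pow hα hd⟩
  obtain ⟨N₀, hN₀⟩ := keep_good (T := ℤ) (fun _ => True)
    (fun t => ∀ F : MvPolynomial (Fin 2) ℤ, Regular d F → (len F : ℝ) ≤ K * (1 + |(t : ℝ)|) ^ η → Bounded d F t)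
    (fun t : ℤ => |(t : ℝ)|) hf hG
    (s := 1 / (d : ℝ) + η * (((d + 1) * (d + 2) / 2 : ℕ) : ℝ)) (κ := κ) (by positivity) hκ h1 (fun ε hε => by
      obtain ⟨C, hC⟩ := countS d hd K η hη
      have hC0 : 0 ≤ C := by
        have h2 := hC 1 le_rfl
        rw [Real.one_rpow, mul_one] at h2
        exact le_trans (Nat.cast_nonneg _) h2
      refine ⟨C, fun X hX => ⟨fin_abs _ X, ?_⟩⟩
      refine le_trans (le_of_eq ?_) ((hC X hX).trans (mul_le_mul_of_nonneg_left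
        (Real.rpow_le_rpow_of_exponent_le hX (by linarith)) hC0))
      congr 2
      ext t
      simp only [Set.mem_ofPred_eq, true_and]
      push Not
      rfl) U
  refine ⟨N₀, fun N hN => le_trans (le_of_eq ?_) (hN₀ N hN)⟩
  congr 2
  ext m
  simp only [Set.mem_ofPred_eq, true_imp_iff]

end Pool.Agent.Results.MP_2d259b_nt.MultiplicativeValues
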