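import Pool.Agent.N671.DA.Win
import Pool.Agent.Results.MP_2d259b_nt.FibresOffPolynomialValues
import Pool.Agent.Results.MP_2d259b_nt.FewExceptionalCurves

/-!
# Effective bounds for the integer points on all curves `F(x, y) = t`, `t` near functions of the denominators of good
approximations

Let `α_1, …, α_m` be real numbers. We consider the natural numbers `q` with `‖q α_j - β_j‖ ≤ c q^(-τ)` for all `j`, `‖x‖` the
distance to the nearest integer; for `β = 0`, `c = 1`, `τ = 1 / m` these include the denominators of all best simultaneous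
approximations (the denominators of the convergents for `m = 1`). They form a very sparse sequence. Let `G` be a function with
steps bounded below by a positive constant and growth at most `v^δ`, for example `a v^δ`. Let `d ≥ 4` and
`s = 1 / d + η (d + 1) (d + 2) / 2`. For all `α` in `ℝ^m` outside ONE set of Hausdorff dimension at most
`(m + δ s + κ) / (1 + τ)`, for all `K` and `c`, for all but finitely many such `q`, for EVERY integer `t` with
`||t| - G q| ≤ q^κ` and ALL polynomials `F ∈ ℤ[x, y]` of degree `d` with squarefree leading form and `h(F) ≤ K (1 + |t|)^η`,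
all integer points of the curve `F(x, y) = t` are bounded by an explicit power of `h(F) + |t|`. For `τ = 1 / m` the bound is
less than `m` if `δ s + κ < 1`; and so the statement holds for almost all `α`.

The lemmas `count` and `countS` are those of the theorem `MultiplicativeValues` of this problem (helper861).
-/

set_option autoImplicit false

namespace Pool.Agent.Results.MP_2d259b_nt.SimultaneousApproximations

open Pool.Agent.N671.DA (Solves Expanding expanding_pow approx_good)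

/-- the sum of the absolute values of the coefficients -/
def len (F : MvPolynomial (Fin 2) ℤ) : ℕ := ∑ m ∈ F.support, (F.coeff m).natAbs

/-- `F` has degree `d` and its leading form is squarefree over `ℚ` -/
def Regular (d : ℕ) (F : MvPolynomial (Fin 2) ℤ) : Prop :=
  F.totalDegree = d ∧
    Squarefree (MvPolynomial.map (Int.castRingHom ℚ) (MvPolynomial.homogeneousComponent d F))

/-- all integer points of the curve `F(x, y) = t` are at most
`((d + 1) (h(F) + |t|)) ^ (10 ^ 17 * 1296 ^ d * (d + 1) ^ 15)` -/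
def Bounded (d : ℕ) (F : MvPolynomial (Fin 2) ℤ) (t : ℤ) : Prop :=
  ∀ x y : ℤ, MvPolynomial.eval ![x, y] F = t →
    max x.natAbs y.natAbs ≤ ((d + 1) * (len F + t.natAbs)) ^ (10 ^ 17 * 1296 ^ d * (d + 1) ^ 15)

lemma fin_abs (P : ℤ → Prop) (X : ℝ) : {k : ℤ | P k ∧ |(k : ℝ)| ≤ X}.Finite := by
  refine (Set.finite_Icc (-⌊X⌋) ⌊X⌋).subset ?_
  rintro k ⟨-, h1⟩
  rw [abs_le] at h1
  rw [Set.mem_Icc]
  constructor
  · rw [neg_le]
    apply Int.le_floor.2
    push_cast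
    linarith [h1.1]
  · exact Int.le_floor.2 h1.2

/-- the exceptional `t` for one polynomial, with a constant which depends on the degree only -/
lemma count (d : ℕ) (hd : 4 ≤ d) : ∃ C : ℝ, 0 ≤ C ∧ ∀ F : MvPolynomial (Fin 2) ℤ, Regular d F → ∀ X : ℝ, 1 ≤ X →
    ({k : ℤ | ¬ Bounded d F k ∧ |(k : ℝ)| ≤ X}.ncard : ℝ) ≤ C * X ^ (1 / (d : ℝ)) := by
  obtain ⟨N, hN⟩ : ∃ N : ℕ, N = 10 ^ 9 * 36 ^ d * (d + 1) ^ 9 := ⟨_, rfl⟩
  refine ⟨5 * N, by positivity, fun F hF X hX => ?_⟩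
  obtain ⟨-, h2⟩ := FibresOffPolynomialValues.result d hd F hF.1 hF.2
  have hX0 : 0 < X := by linarith
  have hd0 : (0 : ℝ) < d := by exact_mod_cast (by omega : 0 < d)
  obtain ⟨ρ, hρ⟩ : ∃ ρ : ℝ, ρ = X ^ (1 / (d : ℝ)) := ⟨_, rfl⟩
  have hρ1 : 1 ≤ ρ := by
    rw [hρ]
    exact Real.one_le_rpow hX (by positivity)
  have hρp : ρ ^ d = X := by
    rw [hρ, ← Real.rpow_natCast, ← Real.rpow_mul hX0.le, one_div_mul_cancel hd0.ne', Real.rpow_one]
  obtain ⟨M, hM⟩ : ∃ M : ℕ, M = ⌈ρ⌉₊ := ⟨_, rfl⟩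
  have hM1 : ρ ≤ M := by rw [hM]; exact Nat.le_ceil _
  have hM2 : (M : ℝ) ≤ ρ + 1 := by
    rw [hM]
    exact (Nat.ceil_lt_add_one (by linarith)).le
  have h3 := h2 M
  rw [← hN] at h3
  have hsub : {k : ℤ | ¬ Bounded d F k ∧ |(k : ℝ)| ≤ X} ⊆ {t : ℤ | |t| ≤ (M : ℤ) ^ d ∧
      ∃ x y : ℤ, MvPolynomial.eval ![x, y] F = t ∧
        ((d + 1) * (∑ m ∈ F.support, (F.coeff m).natAbs + t.natAbs)) ^
          (10 ^ 17 * 1296 ^ d * (d + 1) ^ 15) < max x.natAbs y.natAbs} := by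
    rintro k ⟨h4, h5⟩
    refine ⟨?_, ?_⟩
    · have h6 : (|k| : ℝ) ≤ (M : ℝ) ^ d := by
        refine h5.trans ?_
        rw [← hρp]
        exact pow_le_pow_left₀ (by linarith) hM1 _
      exact_mod_cast h6
    · unfold Bounded at h4
      push Not at h4
      exact h4
  have h7 : ({k : ℤ | ¬ Bounded d F k ∧ |(k : ℝ)| ≤ X}.encard) ≤ ((N * (2 * M + 1) : ℕ) : ℕ∞) :=
    (Set.encard_le_encard hsub).trans h3
  rw [← (fin_abs _ X).cast_ncard_eq] at h7
  have h8 : {k : ℤ | ¬ Bounded d F k ∧ |(k : ℝ)| ≤ X}.ncard ≤ N * (2 * M + 1) := by exact_mod_cast h7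
  have h9 : ({k : ℤ | ¬ Bounded d F k ∧ |(k : ℝ)| ≤ X}.ncard : ℝ) ≤ N * (2 * M + 1) := by exact_mod_cast h8
  have hN0 : (0 : ℝ) ≤ N := Nat.cast_nonneg _
  rw [← hρ]
  calc ({k : ℤ | ¬ Bounded d F k ∧ |(k : ℝ)| ≤ X}.ncard : ℝ) ≤ N * (2 * M + 1) := h9
    _ ≤ N * (5 * ρ) := by
        apply mul_le_mul_of_nonneg_left _ hN0
        linarith
    _ = 5 * N * ρ := by ring

lemma coeff_le_len (F : MvPolynomial (Fin 2) ℤ) (m : Fin 2 →₀ ℕ) : (F.coeff m).natAbs ≤ len F := by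
  by_cases h : m ∈ F.support
  · exact Finset.single_le_sum (f := fun m => (F.coeff m).natAbs) (fun _ _ => Nat.zero_le _) h
  · rw [MvPolynomial.notMem_support_iff.1 h]
    simp

/-- the exceptional `t` for all the polynomials at once -/
lemma countS (d : ℕ) (hd : 4 ≤ d) (K η : ℝ) (hη : 0 ≤ η) : ∃ C : ℝ, ∀ X : ℝ, 1 ≤ X →
    ({t : ℤ | (∃ F, Regular d F ∧ (len F : ℝ) ≤ K * (1 + |(t : ℝ)|) ^ η ∧ ¬ Bounded d F t) ∧
      |(t : ℝ)| ≤ X}.ncard : ℝ) ≤ C * X ^ (1 / (d : ℝ) + η * (((d + 1) * (d + 2) / 2 : ℕ) : ℝ)) := by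
  obtain ⟨C, hC0, hC⟩ := count d hd
  obtain ⟨E, hE⟩ : ∃ E : ℕ, E = (d + 1) * (d + 2) / 2 := ⟨_, rfl⟩
  obtain ⟨K', hK'⟩ : ∃ K' : ℝ, K' = 2 * (|K| * 2 ^ η) + 1 := ⟨_, rfl⟩
  have hK'1 : 0 ≤ K' := by rw [hK']; positivity
  refine ⟨K' ^ E * C, fun X hX => ?_⟩
  have hX0 : 0 < X := by linarith
  obtain ⟨B, hB⟩ : ∃ B : ℕ, B = ⌊|K| * (1 + X) ^ η⌋₊ := ⟨_, rfl⟩
  have hXη : 1 ≤ X ^ η := Real.one_le_rpow hX hη
  have hB1 : (B : ℝ) ≤ |K| * 2 ^ η * X ^ η := by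
    rw [hB]
    refine (Nat.floor_le (by positivity)).trans ?_
    rw [mul_assoc, ← Real.mul_rpow (by norm_num) hX0.le]
    exact mul_le_mul_of_nonneg_left (Real.rpow_le_rpow (by linarith) (by linarith) hη) (abs_nonneg _)
  have hB2 : 2 * (B : ℝ) + 1 ≤ K' * X ^ η := by
    rw [hK', add_mul, one_mul]
    linarith
  have h1 := (FewExceptionalCurves.result d hd B).1
  rw [← hE] at h1
  have hfin : {F : MvPolynomial (Fin 2) ℤ | F.totalDegree ≤ d ∧ ∀ m, |F.coeff m| ≤ (B : ℤ)}.Finite := by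
    apply Set.finite_of_ncard_ne_zero
    rw [h1]
    positivity
  have hcard : (hfin.toFinset.card : ℝ) ≤ K' ^ E * X ^ (η * (E : ℝ)) := by
    rw [← Set.ncard_eq_toFinset_card _ hfin, h1, Real.rpow_mul_natCast hX0.le, ← mul_pow]
    push_cast
    exact pow_le_pow_left₀ (by positivity) hB2 _
  classical
  obtain ⟨A, hA⟩ : ∃ A : Finset (MvPolynomial (Fin 2) ℤ), A = hfin.toFinset.filter (fun F => Regular d F) := ⟨_, rfl⟩
  have hAc : (A.card : ℝ) ≤ K' ^ E * X ^ (η * (E : ℝ)) := by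
    refine le_trans ?_ hcard
    rw [hA]
    exact_mod_cast Finset.card_filter_le _ _
  obtain ⟨W, hW⟩ : ∃ W : MvPolynomial (Fin 2) ℤ → Finset ℤ,
    W = fun F => (fin_abs (fun k => ¬ Bounded d F k) X).toFinset := ⟨_, rfl⟩
  have hsub : {t : ℤ | (∃ F, Regular d F ∧ (len F : ℝ) ≤ K * (1 + |(t : ℝ)|) ^ η ∧ ¬ Bounded d F t) ∧
      |(t : ℝ)| ≤ X} ⊆ ((A.biUnion W : Finset ℤ) : Set ℤ) := by
    rintro t ⟨⟨F, h2, h3, h4⟩, h5⟩
    rw [Finset.mem_coe, Finset.mem_biUnion]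
    refine ⟨F, ?_, ?_⟩
    · rw [hA, Finset.mem_filter, Set.Finite.mem_toFinset]
      refine ⟨⟨h2.1.le, fun m => ?_⟩, h2⟩
      have h6 : (len F : ℝ) ≤ |K| * (1 + X) ^ η := by
        refine h3.trans ((mul_le_mul_of_nonneg_right (le_abs_self K) (by positivity)).trans ?_)
        exact mul_le_mul_of_nonneg_left (Real.rpow_le_rpow (by positivity) (by linarith) hη) (abs_nonneg _)
      have h7 : len F ≤ B := by
        rw [hB]
        exact Nat.le_floor h6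
      have h8 := (coeff_le_len F m).trans h7
      rw [Int.abs_eq_natAbs]
      exact_mod_cast h8
    · rw [hW, Set.Finite.mem_toFinset]
      exact ⟨h4, h5⟩
  have h2 := (Set.ncard_le_ncard hsub (Finset.finite_toSet _))
  rw [Set.ncard_coe_finset] at h2
  have h3 : (({t : ℤ | (∃ F, Regular d F ∧ (len F : ℝ) ≤ K * (1 + |(t : ℝ)|) ^ η ∧ ¬ Bounded d F t) ∧
      |(t : ℝ)| ≤ X}.ncard : ℕ) : ℝ) ≤ ∑ F ∈ A, ((W F).card : ℝ) := by
    exact_mod_cast h2.trans Finset.card_biUnion_le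
  refine h3.trans ?_
  have h4 : ∀ F ∈ A, ((W F).card : ℝ) ≤ C * X ^ (1 / (d : ℝ)) := by
    intro F hF
    rw [hA, Finset.mem_filter] at hF
    have := hC F hF.2 X hX
    rw [Set.ncard_eq_toFinset_card _ (fin_abs _ X)] at this
    rw [hW]
    exact this
  refine (Finset.sum_le_card_nsmul A _ _ h4).trans ?_
  rw [nsmul_eq_mul, Real.rpow_add hX0, ← hE]
  have h5 : 0 ≤ C * X ^ (1 / (d : ℝ)) := by positivity
  calc (A.card : ℝ) * (C * X ^ (1 / (d : ℝ)))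
      ≤ (K' ^ E * X ^ (η * (E : ℝ))) * (C * X ^ (1 / (d : ℝ))) := mul_le_mul_of_nonneg_right hAc h5
    _ = _ := by ring

/-- **Curves near the denominators of good approximations.** Let `G` have steps `≥ a > 0` and growth at most `v ^ δ`. Let
`d ≥ 4`, `η ≥ 0`, `0 ≤ κ ≤ 1`, `β` in `ℝ^m` and `τ > 0`. For all `α` in `ℝ^m` outside ONE set of Hausdorff dimension at most
`(m + δ (1 / d + η (d + 1) (d + 2) / 2) + κ) / (1 + τ)`, for all `K` and `c`, for all large `q` with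
`‖q α_j - β_j‖ ≤ c q^(-τ)` for all `j`, for EVERY integer `t` with `||t| - G q| ≤ q^κ` and ALL polynomials `F ∈ ℤ[x, y]` of
degree `d` with squarefree leading form and `h(F) ≤ K (1 + |t|) ^ η`, all integer points `(x, y)` of `F(x, y) = t` satisfy
`max(|x|, |y|) ≤ ((d + 1) (h(F) + |t|)) ^ (10 ^ 17 * 1296 ^ d * (d + 1) ^ 15)`. The functions `a v ^ δ` with `a > 0`, `δ ≥ 1`
are examples of `G`. -/
theorem result :
    (∀ (G : ℕ → ℝ) (δ : ℝ), Expanding G δ → ∀ (d : ℕ) (η κ : ℝ), 4 ≤ d → 0 ≤ η → 0 ≤ κ → κ ≤ 1 →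
      ∀ (m : ℕ) (β : Fin m → ℝ) (τ : ℝ), 0 < τ →
      ∃ E : Set (Fin m → ℝ), dimH E ≤ ENNReal.ofReal
          ((m + (δ * (1 / (d : ℝ) + η * (((d + 1) * (d + 2) / 2 : ℕ) : ℝ)) + κ)) / (1 + τ)) ∧
        ∀ α, α ∉ E → ∀ K c : ℝ, ∃ Q : ℕ, ∀ q : ℕ, Q ≤ q → Solves α β q (c * (q : ℝ) ^ (-τ)) →
          ∀ t : ℤ, |(|t| : ℝ) - G q| ≤ (q : ℝ) ^ κ →
            ∀ F : MvPolynomial (Fin 2) ℤ, Regular d F → (len F : ℝ) ≤ K * (1 + |(t : ℝ)|) ^ η → Bounded d F t) ∧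
    ∀ a δ : ℝ, 0 < a → 1 ≤ δ → Expanding (fun v => a * (v : ℝ) ^ δ) δ := by
  refine ⟨fun G δ hG d η κ hd hη hκ hκ1 m β τ hτ => ?_, fun α d hα hd => expanding_pow hα hd⟩
  have key : ∀ K : ℕ, ∃ E : Set (Fin m → ℝ), dimH E ≤ ENNReal.ofReal
      ((m + (δ * (1 / (d : ℝ) + η * (((d + 1) * (d + 2) / 2 : ℕ) : ℝ)) + κ)) / (1 + τ)) ∧
      ∀ α, α ∉ E → ∀ c : ℝ, ∃ Q : ℕ, ∀ q : ℕ, Q ≤ q → Solves α β q (c * (q : ℝ) ^ (-τ)) →
        ∀ t : ℤ, |(|(t : ℝ)|) - G q| ≤ (q : ℝ) ^ κ →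
          ∀ F : MvPolynomial (Fin 2) ℤ, Regular d F → (len F : ℝ) ≤ (K : ℝ) * (1 + |(t : ℝ)|) ^ η → Bounded d F t := by
    intro K
    obtain ⟨E, hE, hE2⟩ := approx_good (T := ℤ) (fun _ => True)
      (fun t => ∀ F : MvPolynomial (Fin 2) ℤ, Regular d F → (len F : ℝ) ≤ (K : ℝ) * (1 + |(t : ℝ)|) ^ η → Bounded d F t)
      (fun t : ℤ => |(t : ℝ)|) hG
      (s := 1 / (d : ℝ) + η * (((d + 1) * (d + 2) / 2 : ℕ) : ℝ)) (κ := κ) (by positivity) hκ hκ1 (fun ε hε => by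
        obtain ⟨C, hC⟩ := countS d hd K η hη
        have hC0 : 0 ≤ C := by
          have h2 := hC 1 le_rfl
          rw [Real.one_rpow, mul_one] at h2
          exact le_trans (Nat.cast_nonneg _) h2
        refine ⟨C, fun X hX => ⟨fin_abs _ X, ?_⟩⟩
        refine le_trans (le_of_eq ?_) ((hC X hX).trans (mul_le_mul_of_nonneg_left
          (Real.rpow_le_rpow_of_exponent_le hX (by linarith)) hC0))
        congr 2
        ext t
        simp only [Set.mem_ofPred_eq, true_and]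
        push Not
        rfl) β hτ
    refine ⟨E, hE, fun α hα c => ?_⟩
    obtain ⟨Q, hQ⟩ := hE2 α hα c
    exact ⟨Q, fun q hq h1 t ht => hQ q hq h1 t trivial ht⟩
  choose E hE hE2 using key
  refine ⟨⋃ K, E K, ?_, fun α hα K c => ?_⟩
  · rw [dimH_iUnion]
    exact iSup_le hE
  · obtain ⟨K', hK'⟩ := exists_nat_ge K
    obtain ⟨Q, hQ⟩ := hE2 K' α (fun h => hα (Set.mem_iUnion.2 ⟨_, h⟩)) c
    refine ⟨Q, fun q hq h1 t ht F hF hl => hQ q hq h1 t ?_ F hF (hl.trans ?_)⟩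
    · exact_mod_cast ht
    · exact mul_le_mul_of_nonneg_right hK' (by positivity)

end Pool.Agent.Results.MP_2d259b_nt.SimultaneousApproximations
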